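import Pool.Agent.W276.GE.Basic

/-! GE-COV (owner helper276): numbers of values in different degrees. -/

set_option autoImplicit false

open Finset

noncomputable section

namespace Pool.Agent.W216.GE

open Pool.Agent.W276.GE

theorem exists_dom {n : ℕ} (v : Fin n → ℕ) (m : ℕ) (h : m ≤ ∑ i, v i) :
    ∃ β : Fin n → ℕ, (∀ i, β i ≤ v i) ∧ ∑ i, β i = m := by
  induction m with
  | zero => exact ⟨0, fun i => Nat.zero_le _, by simp⟩
  | succ m ih =>
    obtain ⟨β, h1, h2⟩ := ih (by omega)
    obtain ⟨i, _, hi⟩ := Finset.exists_lt_of_sum_lt (s := univ) (f := β) (g := v) (by omega)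
    refine ⟨Function.update β i (β i + 1), ?_, ?_⟩
    · intro k
      by_cases hk : k = i
      · subst hk
        rw [Function.update_self]
        omega
      · rw [Function.update_of_ne hk]
        exact h1 k
    · have h3 := Finset.sum_update_of_mem (mem_univ i) β (β i + 1)
      have h4 := Finset.add_sum_erase univ β (mem_univ i)
      rw [h3, Finset.sdiff_singleton_eq_erase]
      omega

theorem nv_eq {n t T : ℕ} (x : Fin n → ℂ) :
    nv t T x = ((box n t T).image (fun g => ev g x)).card := by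
  classical
  unfold nv
  rw [← Finset.coe_image, Set.ncard_coe_finset]

theorem cov : S_cov := by
  classical
  intro N
  refine ⟨Fintype.card (Fin (N + 1) → Fin ((N + 1) * (2 * N + 1) + 1)), ?_⟩
  intro d hd T x
  obtain ⟨n, hn⟩ : ∃ n, n = N + 1 := ⟨_, rfl⟩
  obtain ⟨s, hs⟩ : ∃ s, s = d / (N + 1) := ⟨_, rfl⟩
  obtain ⟨t, ht⟩ : ∃ t, t = (N + 1) * (d - 1) + 1 := ⟨_, rfl⟩
  rw [← ht]
  have hs1 : 1 ≤ s := by
    rw [hs]
    exact (Nat.one_le_div_iff (by omega)).2 hd
  have hsd : (N + 1) * s ≤ d := by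
    rw [hs]
    exact Nat.mul_div_le d (N + 1)
  have hds : d ≤ (2 * N + 1) * s := by
    have h1 := Nat.lt_mul_div_succ d (Nat.succ_pos N)
    rw [Nat.succ_eq_add_one, ← hs] at h1
    have h2 : N ≤ N * s := Nat.le_mul_of_pos_right _ hs1
    nlinarith
  have htd : t ≤ (N + 1) * d := by
    rw [ht]
    obtain ⟨e, rfl⟩ : ∃ e, d = e + 1 := ⟨d - 1, by omega⟩
    rw [Nat.add_sub_cancel]
    nlinarith
  have hdt : d ≤ t := by
    rw [ht]
    have : d - 1 ≤ (N + 1) * (d - 1) := Nat.le_mul_of_pos_left _ (by omega)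
    omega
  have htd' : (t - d) + d = t := by omega
  -- the box of an exponent vector
  have hlt : ∀ (α : E (N + 1) t) (i : Fin (N + 1)),
      α.1 i / s < (N + 1) * (2 * N + 1) + 1 := by
    intro α i
    have h1 : α.1 i ≤ t :=
      (Finset.single_le_sum (f := α.1) (fun _ _ => Nat.zero_le _) (mem_univ i)).trans_eq
        (E_sum α)
    rw [Nat.lt_succ_iff]
    apply Nat.div_le_of_le_mul
    calc α.1 i ≤ (N + 1) * d := h1.trans htd
      _ ≤ (N + 1) * ((2 * N + 1) * s) := Nat.mul_le_mul_left _ hds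
      _ = s * ((N + 1) * (2 * N + 1)) := by ring
  set cc : E (N + 1) t → (Fin (N + 1) → Fin ((N + 1) * (2 * N + 1) + 1)) :=
    fun α i => ⟨α.1 i / s, hlt α i⟩ with hcc
  have hval : ∀ α : E (N + 1) t, t - d ≤ ∑ i, s * ((cc α i : ℕ)) := by
    intro α
    have h1 : ∑ i, α.1 i ≤ ∑ i, (s * ((cc α i : ℕ)) + s) := by
      apply sum_le_sum
      intro i _
      have := Nat.lt_mul_div_succ (α.1 i) (show 0 < s by omega)
      simp only [hcc]
      nlinarith
    rw [E_sum, sum_add_distrib, sum_const, card_univ, Fintype.card_fin, smul_eq_mul] at h1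
    omega
  have hex : ∀ c : Fin (N + 1) → Fin ((N + 1) * (2 * N + 1) + 1), ∃ β : E (N + 1) (t - d),
      t - d ≤ ∑ i, s * ((c i : ℕ)) → ∀ i, β.1 i ≤ s * ((c i : ℕ)) := by
    intro c
    by_cases h : t - d ≤ ∑ i, s * ((c i : ℕ))
    · obtain ⟨β, h1, h2⟩ := exists_dom _ _ h
      exact ⟨⟨β, mem_E.2 h2⟩, fun _ => h1⟩
    · refine ⟨⟨Pi.single 0 (t - d), ?_⟩, fun h' => absurd h' h⟩
      rw [mem_E, Finset.sum_pi_single']
      simp
  choose β hβ using hex
  have hmem : ∀ (c : Fin (N + 1) → Fin ((N + 1) * (2 * N + 1) + 1)) (γ : E (N + 1) d),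
      (fun i => (β c).1 i + γ.1 i) ∈ Finset.Nat.antidiagonalTuple (N + 1) t := by
    intro c γ
    rw [mem_E, sum_add_distrib, E_sum, E_sum, htd']
  -- the decomposition
  have hdec : ∀ g : E (N + 1) t → ℤ, ev g x = ∑ c, (∏ i, x i ^ (β c).1 i) *
      ev (fun γ : E (N + 1) d => if cc ⟨_, hmem c γ⟩ = c then g ⟨_, hmem c γ⟩ else 0) x := by
    intro g
    have h1 : g = ∑ c, (fun α : E (N + 1) t => if cc α = c then g α else 0) := by
      funext α
      rw [Finset.sum_apply, Finset.sum_ite_eq]
      simp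
    conv_lhs => rw [h1]
    rw [ev_sum]
    apply sum_congr rfl
    intro c _
    rw [← ev_sh htd']
    congr 1
    funext α
    rw [sh]
    split_ifs with h2 h3 h3
    · rw [co]
      have h4 : (fun i => α.1 i - (β c).1 i) ∈ Finset.Nat.antidiagonalTuple (N + 1) d := by
        have h5 : ∑ i, (α.1 i - (β c).1 i) + ∑ i, (β c).1 i = t := by
          rw [← sum_add_distrib]
          refine Eq.trans ?_ (E_sum α)
          apply sum_congr rfl
          intro i _
          have := h3 i
          omega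
        rw [E_sum] at h5
        rw [mem_E]
        omega
      rw [dif_pos h4]
      have h6 : (⟨_, hmem c ⟨_, h4⟩⟩ : E (N + 1) t) = α := by
        apply Subtype.ext
        funext i
        have := h3 i
        change (β c).1 i + (α.1 i - (β c).1 i) = α.1 i
        omega
      rw [h6, if_pos h2]
    · exfalso
      apply h3
      intro i
      have h4 : (β c).1 i ≤ s * ((c i : ℕ)) := hβ c (by rw [← h2]; exact hval α) i
      have h6 : ((c i : ℕ)) = α.1 i / s := by rw [← h2]
      rw [h6] at h4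
      exact h4.trans (Nat.mul_div_le (α.1 i) s)
    · rw [co]
      split_ifs with h4 h5
      · exfalso
        apply h2
        have h6 : (⟨_, hmem c ⟨_, h4⟩⟩ : E (N + 1) t) = α := by
          apply Subtype.ext
          funext i
          have := h3 i
          change (β c).1 i + (α.1 i - (β c).1 i) = α.1 i
          omega
        rw [h6] at h5
        exact h5
      · rfl
      · rfl
    · rfl
  rw [nv_eq, nv_eq]
  have hsub : (box (N + 1) t T).image (fun g => ev g x) ⊆
      (Fintype.piFinset fun _ : Fin (N + 1) → Fin ((N + 1) * (2 * N + 1) + 1) =>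
        (box (N + 1) d T).image (fun g => ev g x)).image
          (fun v => ∑ c, (∏ i, x i ^ (β c).1 i) * v c) := by
    intro y hy
    rw [mem_image] at hy
    obtain ⟨g, hg, rfl⟩ := hy
    rw [mem_image]
    refine ⟨fun c => ev (fun γ : E (N + 1) d =>
      if cc ⟨_, hmem c γ⟩ = c then g ⟨_, hmem c γ⟩ else 0) x, ?_, (hdec g).symm⟩
    rw [Fintype.mem_piFinset]
    intro c
    rw [mem_image]
    refine ⟨_, ?_, rfl⟩
    rw [mem_box] at hg ⊢
    intro γ
    split_ifs
    · exact hg _
    · simp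
  refine (card_le_card hsub).trans (card_image_le.trans ?_)
  rw [Fintype.card_piFinset, prod_const, card_univ]

end Pool.Agent.W216.GE
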