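import Pool.Agent.W276.GE.Basic

/-! GE-DEG (owner helper276): few degenerate systems. -/

set_option autoImplicit false

open Finset

noncomputable section

namespace Pool.Agent.W216.GE

open Pool.Agent.W276.GE

/-- the exponent vector of `x_i^d` -/
def pw (n d : ℕ) (i : Fin n) : E n d := ⟨Pi.single i d, by
  rw [mem_E, Finset.sum_pi_single']
  simp⟩

/-- the system `x_i^d` -/
def Dd (n d : ℕ) : Fin n → E n d → ℤ := fun i => Pi.single (pw n d i) 1

theorem exists_j {n d : ℕ} (hd : 1 ≤ d) (α : E n (n * (d - 1) + 1)) : ∃ j, d ≤ α.1 j := by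
  by_contra hcon
  push Not at hcon
  have h1 : ∑ i, α.1 i ≤ ∑ _i : Fin n, (d - 1) := sum_le_sum fun i _ => by
    have := hcon i
    omega
  rw [E_sum, sum_const, card_univ, Fintype.card_fin, smul_eq_mul] at h1
  omega

/-- `α - d e_j` -/
def gam {n d t s : ℕ} (hs : s + d = t) (α : E n t) (j : Fin n) (h : d ≤ α.1 j) : E n s :=
  ⟨Function.update α.1 j (α.1 j - d), by
    rw [mem_E]
    have h1 := E_sum α
    have h2 := Finset.sum_update_of_mem (mem_univ j) α.1 (α.1 j - d)
    have h3 := Finset.add_sum_erase univ α.1 (mem_univ j)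
    rw [h2, Finset.sdiff_singleton_eq_erase]
    omega⟩

theorem co_add_smul {n t : ℕ} (g h : E n t → ℤ) (c : ℤ) (β : Fin n → ℕ) :
    co (g + c • h) β = co g β + c * co h β := by
  unfold co
  split_ifs
  · simp
  · simp

theorem sh_add_smul {n d s t : ℕ} (g h : E n d → ℤ) (c : ℤ) (γ : E n s) (α : E n t) :
    sh (g + c • h) γ α = sh g γ α + c * sh h γ α := by
  unfold sh
  split_ifs
  · exact co_add_smul g h c _
  · simp

theorem sh_Dd {n d s t : ℕ} (hs : s + d = t) (α : E n t) (j : Fin n) (h : d ≤ α.1 j) (β : E n t) :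
    sh (Dd n d j) (gam hs α j h) β = if α = β then 1 else 0 := by
  classical
  have hg : ∀ i, (gam hs α j h).1 i = if i = j then α.1 j - d else α.1 i := by
    intro i
    unfold gam
    simp only [Function.update_apply]
  by_cases hab : α = β
  · subst hab
    rw [if_pos rfl]
    have h1 : ∀ i, (gam hs α j h).1 i ≤ α.1 i := by
      intro i
      rw [hg]
      split_ifs with hi
      · subst hi; omega
      · exact le_rfl
    have h2 : (fun i => α.1 i - (gam hs α j h).1 i) = (pw n d j).1 := by
      funext i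
      rw [hg]
      change _ = (Pi.single j d : Fin n → ℕ) i
      by_cases hi : i = j
      · subst hi
        rw [if_pos rfl, Pi.single_eq_same]
        omega
      · rw [if_neg hi, Pi.single_eq_of_ne hi]
        omega
    rw [sh, if_pos h1, co, h2, dif_pos (pw n d j).2]
    unfold Dd
    simp
  · rw [if_neg hab, sh]
    split_ifs with h1
    · rw [co]
      split_ifs with h2
      · unfold Dd
        rw [Pi.single_eq_of_ne]
        intro h3
        apply hab
        apply Subtype.ext
        funext i
        have h4 := congrFun (congrArg Subtype.val h3) i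
        have h5 := h1 i
        rw [hg] at h5
        simp only [pw] at h4
        rw [hg] at h4
        by_cases hi : i = j
        · subst hi
          rw [if_pos rfl] at h4 h5
          rw [Pi.single_eq_same] at h4
          omega
        · rw [if_neg hi] at h4 h5
          rw [Pi.single_eq_of_ne hi] at h4
          omega
      · rfl
    · rfl

/-- the matrix of the system -/
def mat {n d s t : ℕ} (hs : s + d = t) (jj : E n t → Fin n) (hj : ∀ α : E n t, d ≤ α.1 (jj α))
    (F : Fin n → E n d → ℤ) : Matrix (E n t) (E n t) ℤ :=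
  fun α β => sh (F (jj α)) (gam hs α (jj α) (hj α)) β

theorem mat_add {n d s t : ℕ} (hs : s + d = t) (jj : E n t → Fin n) (hj : ∀ α : E n t, d ≤ α.1 (jj α))
    (F : Fin n → E n d → ℤ) (c : ℤ) :
    mat hs jj hj (F + c • Dd n d) = Matrix.scalar _ c - (-(mat hs jj hj F)) := by
  classical
  ext α β
  rw [sub_neg_eq_add, Matrix.add_apply, Matrix.scalar_apply, Matrix.diagonal_apply]
  unfold mat
  rw [Pi.add_apply, Pi.smul_apply, sh_add_smul, sh_Dd]
  split_ifs
  · ring
  · ring

theorem noZero_of_det {n d s t : ℕ} (ht : 1 ≤ t) (hs : s + d = t) (jj : E n t → Fin n)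
    (hj : ∀ α : E n t, d ≤ α.1 (jj α)) (F : Fin n → E n d → ℤ) (hdet : (mat hs jj hj F).det ≠ 0) :
    NoZero F := by
  classical
  intro x hx
  have h1 : ((mat hs jj hj F).map (fun z : ℤ => (z : ℂ))).det ≠ 0 := by
    have : ((mat hs jj hj F).map (fun z : ℤ => (z : ℂ))).det =
        (((mat hs jj hj F).det : ℤ) : ℂ) := by
      have := (RingHom.map_det (Int.castRingHom ℂ) (mat hs jj hj F)).symm
      simpa using this
    rw [this]
    exact_mod_cast hdet
  have h2 : ((mat hs jj hj F).map (fun z : ℤ => (z : ℂ))).mulVec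
      (fun β : E n t => ∏ i, x i ^ β.1 i) = 0 := by
    funext α
    have h3 := ev_sh hs (F (jj α)) (gam hs α (jj α) (hj α)) x
    rw [hx (jj α), mul_zero] at h3
    rw [Pi.zero_apply, ← h3]
    rfl
  have h3 := Matrix.eq_zero_of_mulVec_eq_zero h1 h2
  funext i
  have h4 := congrFun h3 (pw n t i)
  simp only [Pi.zero_apply] at h4
  rw [Finset.prod_eq_single i] at h4
  · have h5 : (pw n t i).1 i = t := by simp [pw]
    rw [h5] at h4
    exact pow_eq_zero_iff (by omega) |>.1 h4
  · intro k _ hk
    have h5 : (pw n t i).1 k = 0 := by simp [pw, hk]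
    rw [h5, pow_zero]
  · intro h; exact absurd (mem_univ i) h

theorem deg : S_deg := by
  classical
  intro n d hn hd
  obtain ⟨m, rfl⟩ : ∃ m, n = m + 1 := ⟨n - 1, by omega⟩
  obtain ⟨t, ht⟩ : ∃ t, t = (m + 1) * (d - 1) + 1 := ⟨_, rfl⟩
  have hdt : d ≤ t := by
    have : d - 1 ≤ (m + 1) * (d - 1) := Nat.le_mul_of_pos_left _ (by omega)
    omega
  have hs : (t - d) + d = t := by omega
  have hjex : ∀ α : E (m + 1) t, ∃ j, d ≤ α.1 j := by
    subst ht
    exact fun α => exists_j hd α
  choose jj hj using hjex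
  refine ⟨Fintype.card (E (m + 1) t) * 5 ^ ((m + 1) * Fintype.card (E (m + 1) d) - 1), ?_⟩
  intro H hH
  set S : Finset (Fin (m + 1) → E (m + 1) d → ℤ) :=
    (Fb (m + 1) d H).filter (fun F => ¬ NoZero F) with hS
  have hSc : {F : Fin (m + 1) → E (m + 1) d → ℤ | F ∈ Fb (m + 1) d H ∧ ¬ NoZero F} =
      (S : Set (Fin (m + 1) → E (m + 1) d → ℤ)) := by
    ext F
    simp [hS]
  rw [hSc, Set.ncard_coe_finset]
  set Φ : (Fin (m + 1) → E (m + 1) d → ℤ) → (Fin (m + 1) → E (m + 1) d → ℤ) :=
    fun F => F - (F 0 (pw (m + 1) d 0)) • Dd (m + 1) d with hΦ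
  have hΦF : ∀ F, F = Φ F + (F 0 (pw (m + 1) d 0)) • Dd (m + 1) d := by
    intro F
    simp only [hΦ]
    rw [sub_add_cancel]
  -- the fibres
  have hfib : ∀ G ∈ S.image Φ, (S.filter (fun F => Φ F = G)).card ≤
      Fintype.card (E (m + 1) t) := by
    intro G _
    set P := (-(mat hs jj hj G)).charpoly with hP
    have hP0 : P ≠ 0 := (Matrix.charpoly_monic _).ne_zero
    have hsub : ∀ F ∈ S.filter (fun F => Φ F = G), F 0 (pw (m + 1) d 0) ∈ P.roots.toFinset := by
      intro F hF
      rw [mem_filter, hS, mem_filter] at hF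
      obtain ⟨⟨_, hF1⟩, hF2⟩ := hF
      rw [Multiset.mem_toFinset, Polynomial.mem_roots hP0, Polynomial.IsRoot.def, hP,
        Matrix.eval_charpoly, ← mat_add]
      by_contra hne
      apply hF1
      have := noZero_of_det (by omega) hs jj hj _ hne
      rw [← hF2, ← hΦF] at this
      exact this
    have hcard : (S.filter (fun F => Φ F = G)).card ≤ P.roots.toFinset.card := by
      apply card_le_card_of_injOn (fun F => F 0 (pw (m + 1) d 0))
        (fun F hF => Finset.mem_coe.2 (hsub F (Finset.mem_coe.1 hF)))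
      intro F hF F' hF' he
      rw [Finset.mem_coe, mem_filter] at hF hF'
      simp only at he
      rw [hΦF F, hΦF F', hF.2, hF'.2, he]
    refine hcard.trans ((Multiset.toFinset_card_le _).trans ((Polynomial.card_roots' P).trans ?_))
    rw [hP, Matrix.charpoly_natDegree_eq_dim]
  have hcard := Finset.card_le_mul_card_image S (Fintype.card (E (m + 1) t)) hfib
  -- the image
  set W : Finset (Fin (m + 1) → E (m + 1) d → ℤ) := Fintype.piFinset fun i =>
    Fintype.piFinset fun α => if (i, α) = ((0 : Fin (m + 1)), pw (m + 1) d 0) then {0} else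
      Icc (-(2 * H : ℤ)) (2 * H) with hW
  have himg : S.image Φ ⊆ W := by
    intro G hG
    rw [mem_image] at hG
    obtain ⟨F, hF, rfl⟩ := hG
    rw [hS, mem_filter, mem_Fb] at hF
    have hb : ∀ i α, |F i α| ≤ (H : ℤ) := fun i α => mem_box.1 (hF.1 i) α
    rw [hW, Fintype.mem_piFinset]
    intro i
    rw [Fintype.mem_piFinset]
    intro α
    have hval : Φ F i α = F i α - F 0 (pw (m + 1) d 0) * Dd (m + 1) d i α := by
      simp only [hΦ, Pi.sub_apply, Pi.smul_apply, smul_eq_mul]
    rw [hval]
    split_ifs with h0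
    · rw [Prod.mk.injEq] at h0
      obtain ⟨h1, h2⟩ := h0
      subst h1
      rw [h2]
      simp [Dd]
    · have hD : Dd (m + 1) d i α = 0 ∨ Dd (m + 1) d i α = 1 := by
        unfold Dd
        by_cases hα : α = pw (m + 1) d i
        · right; rw [hα, Pi.single_eq_same]
        · left; rw [Pi.single_eq_of_ne hα]
      have h1 := abs_le.1 (hb i α)
      have h2 := abs_le.1 (hb 0 (pw (m + 1) d 0))
      rw [mem_Icc]
      rcases hD with hD | hD
      · rw [hD]
        constructor <;> omega
      · rw [hD]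
        constructor <;> omega
  have hWc : W.card = (4 * H + 1) ^ ((m + 1) * Fintype.card (E (m + 1) d) - 1) := by
    rw [hW, Fintype.card_piFinset]
    simp only [Fintype.card_piFinset]
    rw [← Fintype.prod_prod_type' (f := fun i α => (if (i, α) = ((0 : Fin (m + 1)),
      pw (m + 1) d 0) then ({0} : Finset ℤ) else Icc (-(2 * H : ℤ)) (2 * H)).card)]
    rw [← Finset.mul_prod_erase univ _ (mem_univ ((0 : Fin (m + 1)), pw (m + 1) d 0))]
    simp only [Prod.mk.eta, if_true, card_singleton, one_mul]
    rw [Finset.prod_congr rfl (g := fun _ => 4 * H + 1)]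
    · rw [prod_const, card_erase_of_mem (mem_univ _), card_univ, Fintype.card_prod,
        Fintype.card_fin]
    · intro x hx
      rw [if_neg (ne_of_mem_erase hx), Int.card_Icc]
      omega
  calc S.card ≤ Fintype.card (E (m + 1) t) * (S.image Φ).card := hcard
    _ ≤ Fintype.card (E (m + 1) t) * W.card := Nat.mul_le_mul_left _ (card_le_card himg)
    _ = Fintype.card (E (m + 1) t) *
        (4 * H + 1) ^ ((m + 1) * Fintype.card (E (m + 1) d) - 1) := by rw [hWc]
    _ ≤ Fintype.card (E (m + 1) t) *
        (5 * H) ^ ((m + 1) * Fintype.card (E (m + 1) d) - 1) := by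
          apply Nat.mul_le_mul_left
          apply Nat.pow_le_pow_left
          omega
    _ = _ := by rw [mul_pow]; ring

end Pool.Agent.W216.GE
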