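import Pool.Agent.W276.GE.Basic
import Pool.Agent.H503R3.QCI.Hilb

/-! GE-REG (owner helper276): Macaulay's bound. -/

set_option autoImplicit false

open MvPolynomial

noncomputable section

namespace Pool.Agent.W216.GE

open Pool.Agent.W276.GE

theorem eval_zero_of_lin {n : ℕ} {h : MvPolynomial (Fin n) ℂ} (hh : h.IsHomogeneous 1) :
    MvPolynomial.eval (0 : Fin n → ℂ) h = 0 := by
  have h1 : MvPolynomial.eval (0 : Fin n → ℂ) h = MvPolynomial.coeff 0 h := by
    have := MvPolynomial.eval_zero' (R := ℂ) (σ := Fin n)
    rw [← MvPolynomial.constantCoeff_eq]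
    simp
  rw [h1]
  exact hh.coeff_eq_zero (by simp)

theorem key (hperm : S_perm) (hlin : S_lin) (hhyp : S_hyp) (k : ℕ) :
    ∀ (n : ℕ) (lin fs : List (MvPolynomial (Fin n) ℂ)), fs.length = k →
      lin.length + fs.length = n → (∀ f ∈ lin, f.IsHomogeneous 1) →
      (∀ f ∈ fs, ∃ e, 1 ≤ e ∧ f.IsHomogeneous e) →
      (∀ x : Fin n → ℂ, (∀ f ∈ lin ++ fs, MvPolynomial.eval x f = 0) → x = 0) →
      RingTheory.Sequence.IsWeaklyRegular (MvPolynomial (Fin n) ℂ) (lin ++ fs) := by
  induction k with
  | zero =>
    intro n lin fs h0 h1 h2 h3 h4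
    rw [List.length_eq_zero_iff] at h0
    subst h0
    rw [List.append_nil] at h4 ⊢
    rw [List.length_nil, add_zero] at h1
    exact hlin n lin h1 h2 h4
  | succ k ih =>
    intro n lin fs h0 h1 h2 h3 h4
    obtain ⟨fs', f, rfl⟩ : ∃ fs' f, fs = fs' ++ [f] := by
      rcases List.eq_nil_or_concat fs with h | ⟨fs', f, h⟩
      · subst h
        simp at h0
      · exact ⟨fs', f, by rw [h, List.concat_eq_append]⟩
    rw [List.length_append, List.length_singleton] at h0 h1
    obtain ⟨m, rfl⟩ : ∃ m, n = m + 1 := ⟨n - 1, by omega⟩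
    have h3f : ∃ e, 1 ≤ e ∧ f.IsHomogeneous e := h3 f (by simp)
    have h3' : ∀ g ∈ fs', ∃ e, 1 ≤ e ∧ g.IsHomogeneous e := fun g hg => h3 g (by simp [hg])
    have hmem : ∀ g, g ∈ f :: (lin ++ fs') ↔ g ∈ lin ++ (fs' ++ [f]) := by
      intro g
      simp only [List.mem_cons, List.mem_append, List.not_mem_nil, or_false]
      tauto
    obtain ⟨h, hh1, hh2⟩ := hhyp m (lin ++ fs') f (by rw [List.length_append]; omega)
      (by
        intro g hg
        rw [List.mem_cons, List.mem_append] at hg
        rcases hg with rfl | hg | hg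
        · exact h3f
        · exact ⟨1, le_rfl, h2 g hg⟩
        · exact h3' g hg)
      (by
        intro x hx
        apply h4 x
        intro g hg
        exact hx g ((hmem g).2 hg))
    have h5 := ih (m + 1) (h :: lin) fs' (by omega) (by rw [List.length_cons]; omega)
      (by
        intro g hg
        rw [List.mem_cons] at hg
        rcases hg with rfl | hg
        · exact hh1
        · exact h2 g hg) h3' (by
        intro x hx
        apply hh2 x
        intro g hg
        exact hx g hg)
    have h6 : RingTheory.Sequence.IsWeaklyRegular (MvPolynomial (Fin (m + 1)) ℂ)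
        ((lin ++ fs') ++ [h]) := by
      refine hperm (m + 1) ((h :: lin) ++ fs') _ ?_ ?_ h5
      · intro g hg
        rw [List.cons_append, List.mem_cons, List.mem_append] at hg
        rcases hg with rfl | hg | hg
        · exact ⟨1, le_rfl, hh1⟩
        · exact ⟨1, le_rfl, h2 g hg⟩
        · exact h3' g hg
      · exact (List.perm_append_singleton h (lin ++ fs')).symm
    rw [RingTheory.Sequence.isWeaklyRegular_append_iff,
      RingTheory.Sequence.isWeaklyRegular_singleton_iff,
      isSMulRegular_quotient_iff_mem_of_smul_mem] at h6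
    obtain ⟨h7, h8⟩ := h6
    rw [← List.append_assoc, RingTheory.Sequence.isWeaklyRegular_append_iff,
      RingTheory.Sequence.isWeaklyRegular_singleton_iff,
      isSMulRegular_quotient_iff_mem_of_smul_mem]
    refine ⟨h7, ?_⟩
    set J : Ideal (MvPolynomial (Fin (m + 1)) ℂ) :=
      (Ideal.ofList (lin ++ fs') • (⊤ : Submodule (MvPolynomial (Fin (m + 1)) ℂ)
        (MvPolynomial (Fin (m + 1)) ℂ))) with hJ
    have hJ' : J = Ideal.ofList (lin ++ fs') := by
      rw [hJ, smul_eq_mul, Ideal.mul_top]
    have hnull : h ∈ (J ⊔ Ideal.span {f}).radical := by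
      rw [← MvPolynomial.vanishingIdeal_zeroLocus_eq_radical (K := ℂ),
        MvPolynomial.mem_vanishingIdeal_iff]
      intro x hx
      rw [MvPolynomial.mem_zeroLocus_iff] at hx
      have hx0 : x = 0 := by
        apply h4 x
        intro g hg
        rw [← hmem, List.mem_cons] at hg
        have h9 : g ∈ J ⊔ Ideal.span {f} := by
          rcases hg with rfl | hg
          · exact Ideal.mem_sup_right (Ideal.mem_span_singleton_self _)
          · apply Ideal.mem_sup_left
            rw [hJ']
            exact Ideal.subset_span hg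
        have := hx g h9
        rwa [MvPolynomial.aeval_eq_eval] at this
      rw [hx0, MvPolynomial.aeval_eq_eval]
      exact eval_zero_of_lin hh1
    obtain ⟨s, hs⟩ := Ideal.mem_radical_iff.1 hnull
    obtain ⟨j, hj, y, hy, hjy⟩ := Submodule.mem_sup.1 hs
    obtain ⟨a, rfl⟩ := Ideal.mem_span_singleton'.1 hy
    intro u hu
    have h9 : h ^ s * u ∈ J := by
      rw [← hjy, add_mul]
      apply add_mem
      · exact Ideal.mul_mem_right _ _ hj
      · rw [mul_assoc]
        exact Ideal.mul_mem_left _ _ hu
    clear hs hjy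
    induction s with
    | zero => simpa using h9
    | succ s ihs =>
      apply ihs
      apply h8
      rw [smul_eq_mul, ← mul_assoc, ← pow_succ']
      exact h9

theorem mac (hperm : S_perm) (hlin : S_lin) (hhyp : S_hyp) : S_mac := by
  intro n d hn hd f hf h0 t ht g hg
  have h1 : RingTheory.Sequence.IsWeaklyRegular (MvPolynomial (Fin n) ℂ) (List.ofFn f) := by
    have := key hperm hlin hhyp n n [] (List.ofFn f) (by simp) (by simp) (by simp)
      (by
        intro g hg
        rw [List.mem_ofFn'] at hg
        obtain ⟨i, rfl⟩ := hg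
        exact ⟨d, hd, hf i⟩)
      (by
        intro x hx
        apply h0 x
        intro i
        apply hx
        rw [List.nil_append, List.mem_ofFn']
        exact ⟨i, rfl⟩)
    simpa using this
  have h2 := H503R3.QCI.reg_of_isWeaklyRegular h1
  have h3 := (H503R3.QCI.isSocleDegree_ci f (fun _ => d) hf (fun _ => hd) h2).2 t
    (by
      rw [Finset.sum_const, Finset.card_univ, Fintype.card_fin, smul_eq_mul]
      omega) g hg
  exact h3

end Pool.Agent.W216.GE
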